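import Pool.Agent.Run7.h735.SS.Lin
import Pool.Agent.Y134.Cyc.Tate

/-!
# The multiplicities of the eigenvalues of Frobenius and the zeta function modulo `p`
-/

set_option autoImplicit false

namespace Pool.Agent.Run7.h735.SS

open Finset Polynomial Pool.Agent.W528.HA Pool.Agent.W528.HS Pool.Agent.Y134.Cyc

/-- The congruence for the part of a character. -/
theorem char_congr {p s : ℕ} (hp : p.Prime) (hs : 1 ≤ s) {κ : Type} [Field κ] [Fintype κ]
    (hdvd : p ^ s ∣ Fintype.card κ - 1) (F : MvPolynomial (Fin 2) κ) {E : Type} [Field E]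
    [CharZero E] [IsAlgClosed E] (χ : MulChar κ E) (hχ : orderOf χ = p ^ s) {j : ℕ} (hj : 1 ≤ j)
    (P₁ P₂ : ℤ[X]) (hP₁ : P₁.coeff 0 = 1) (hP₂ : P₂.coeff 0 = 1) (B₁ B₂ : Multiset E)
    (hB₁ : P₁.map (Int.castRingHom E) = (B₁.map fun x => 1 - C x * X).prod)
    (hB₂ : P₂.map (Int.castRingHom E) = (B₂.map fun x => 1 - C x * X).prod)
    (hC : ∀ (L : Type) [Field L] [Fintype L] [Algebra κ L],
      (curvePoints F L : E) = Fintype.card L - (B₁.map fun x => x ^ Module.finrank κ L).sum
          + (B₂.map fun x => x ^ Module.finrank κ L).sum)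
    (H : (ZMod p)[X])
    (hH : H * P₂.map (Int.castRingHom (ZMod p)) = P₁.map (Int.castRingHom (ZMod p)))
    {W : Type} [AddCommGroup W] [Module E W] [FiniteDimensional E W] (Φ : Module.End E W)
    (hΦ : ∀ (L : Type) [Field L] [Fintype L] [Algebra κ L],
      LinearMap.trace E W (Φ ^ Module.finrank κ L) = charSum (χ ^ j) F L) :
    ∃ (k : Type) (_ : Field k) (_ : CharP k p) (θ : (integralClosure ℤ E).toSubring →+* k)
      (A' : Multiset (integralClosure ℤ E).toSubring),
      A'.map Subtype.val = Φ.charpoly.roots ∧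
      (A'.map fun x => 1 - C (θ x) * X).prod = H.map (ZMod.castHom (dvd_refl p) k) ∧
      ((Fintype.card κ : ℕ) : k) = 1 := by
  classical
  have hfact : Fact p.Prime := ⟨hp⟩
  have hn : 0 < p ^ s := pow_pos hp.pos s
  obtain ⟨z, μ, hz, hμ, hkv⟩ := char_kv hn hdvd χ hχ
  set q := Fintype.card κ with hq
  have hcard : ∀ (L : Type) [Field L] [Fintype L] [Algebra κ L],
      (Fintype.card L : E) = (q : E) ^ Module.finrank κ L := by
    intro L _ _ _
    rw [Module.card_eq_pow_finrank (K := κ) (V := L)]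
    push_cast
    rfl
  have hP₁' : ((1 - C ((q : ℤ) ^ 2) * X) * P₁ : ℤ[X]).coeff 0 = 1 := by simp [hP₁]
  have hP₂' : ((1 - C ((q : ℤ)) * X) * P₂ : ℤ[X]).coeff 0 = 1 := by simp [hP₂]
  have hB₁' : ((1 - C ((q : ℤ) ^ 2) * X) * P₁ : ℤ[X]).map (Int.castRingHom E) =
      ((((q : E) ^ 2) ::ₘ B₁).map fun x => 1 - C x * X).prod := by
    rw [Polynomial.map_mul, hB₁, Multiset.map_cons, Multiset.prod_cons]
    congr 1
    simp
  have hB₂' : ((1 - C ((q : ℤ)) * X) * P₂ : ℤ[X]).map (Int.castRingHom E) =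
      (((q : E) ::ₘ B₂).map fun x => 1 - C x * X).prod := by
    rw [Polynomial.map_mul, hB₂, Multiset.map_cons, Multiset.prod_cons]
    congr 1
    simp
  obtain ⟨k, _, _, θ, A', B₁'', B₂'', hA', hB₁'', hB₂'', h1, -⟩ := congr Pool.Agent.W715.HS.OC.main
    Pool.Agent.W326.HS.EI.main Pool.Agent.W111.HS.EC.main Pool.Agent.W63.HS.TR.main
    Pool.Agent.W804.HS.RD.main hp κ hz (n := 2) (lastMul (F ^ j)) hμ (((q : E) ^ 2) ::ₘ B₁)
    ((q : E) ::ₘ B₂) (integral_of_poly hP₁' hB₁') (integral_of_poly hP₂' hB₂') (by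
      intro L _ _ _
      have h1 : ((projOpen L ((lastMul (F ^ j)).map (algebraMap κ L)) : ℕ) : E)
          + curvePoints F L = (Fintype.card L : E) ^ 2 := by
        exact_mod_cast open_eq hj F L
      rw [hC L, hcard L] at h1
      have e3 : ((q : E) ^ 2) ^ Module.finrank κ L = ((q : E) ^ Module.finrank κ L) ^ 2 := by
        rw [← pow_mul, ← pow_mul, mul_comm]
      rw [Multiset.map_cons, Multiset.sum_cons, Multiset.map_cons, Multiset.sum_cons, e3]
      linear_combination h1)
    Φ (by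
      intro L _ _ _
      rw [even_two.neg_one_pow, one_mul, hΦ L]
      exact charSum_eq hn hz F L (card_dvd hdvd L) (fun u => hkv L u j hj))
  have h1 := h1 even_two
  rw [red_prod hB₁' hB₁'' θ, red_prod hB₂' hB₂'' θ] at h1
  have hq1 : ((q : ℕ) : k) = 1 := card_eq_one hp hs hz k
  have hι : ∀ P : ℤ[X], (P.map (Int.castRingHom (ZMod p))).map (ZMod.castHom (dvd_refl p) k) =
      P.map (Int.castRingHom k) := by
    intro P
    rw [Polynomial.map_map]
    congr 1
    exact RingHom.ext_int _ _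
  have hqX : ((q : ℕ) : k[X]) = 1 := by rw [← C_eq_natCast, hq1, C_1]
  have e1 : ((1 - C ((q : ℤ) ^ 2) * X : ℤ[X])).map (Int.castRingHom k) = 1 - X := by
    simp [hqX]
  have e2 : ((1 - C ((q : ℤ)) * X : ℤ[X])).map (Int.castRingHom k) = 1 - X := by
    simp [hqX]
  rw [Polynomial.map_mul, Polynomial.map_mul, e1, e2] at h1
  refine ⟨k, inferInstance, inferInstance, θ, A', hA', ?_, hq1⟩
  have h3 := congrArg (Polynomial.map (ZMod.castHom (dvd_refl p) k)) hH
  rw [Polynomial.map_mul, hι, hι] at h3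
  have hne : (1 - X : k[X]) * P₂.map (Int.castRingHom k) ≠ 0 := by
    apply mul_ne_zero
    · intro h
      have h4 := congrArg (fun Q => Polynomial.coeff Q 0) h
      simp at h4
    · intro h
      have h4 := congrArg (fun Q => Polynomial.coeff Q 0) h
      simp only [coeff_map, hP₂, coeff_zero, map_one] at h4
      exact one_ne_zero h4
  apply mul_right_cancel₀ hne
  rw [h1, ← h3]
  ring

/-- The power of the minimal polynomial. -/
lemma pow_minpoly_dvd {F k : Type} [Field F] [PerfectField F] [Field k] [Algebra F k] {β : k}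
    (hβ : IsIntegral F β) : ∀ (n : ℕ) (H : F[X]), H ≠ 0 →
    n ≤ (H.map (algebraMap F k)).rootMultiplicity β → minpoly F β ^ n ∣ H := by
  intro n
  induction n with
  | zero => intro H _ _; rw [pow_zero]; exact one_dvd _
  | succ n ih =>
    intro H hH hn
    have hHk : H.map (algebraMap F k) ≠ 0 := by rwa [Ne, Polynomial.map_eq_zero]
    have h1 : (H.map (algebraMap F k)).IsRoot β :=
      (rootMultiplicity_pos hHk).1 (by omega)
    have h2 : aeval β H = 0 := by rwa [IsRoot.def, eval_map_algebraMap] at h1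
    obtain ⟨H₁, rfl⟩ := minpoly.dvd F β h2
    have hH₁ : H₁ ≠ 0 := right_ne_zero_of_mul hH
    rw [pow_succ']
    apply mul_dvd_mul_left
    apply ih H₁ hH₁
    rw [Polynomial.map_mul] at hn hHk
    rw [rootMultiplicity_mul hHk] at hn
    have hsep : ((minpoly F β).map (algebraMap F k)).Separable :=
      (PerfectField.separable_of_irreducible (minpoly.irreducible hβ)).map
    have h3 := rootMultiplicity_le_one_of_separable hsep β
    omega

/-- The multiplicities of the eigenvalues on the part of a character. -/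
theorem count_le {p : ℕ} (hp : p.Prime) {E : Type} [Field E] [CharZero E] [DecidableEq E]
    {k : Type} [Field k] [CharP k p] (θ : (integralClosure ℤ E).toSubring →+* k)
    (A : Multiset E) (A' : Multiset (integralClosure ℤ E).toSubring)
    (hA' : A'.map Subtype.val = A) {H : (ZMod p)[X]} (hH0 : H ≠ 0)
    (hprod : (A'.map fun x => 1 - C (θ x) * X).prod = H.map (ZMod.castHom (dvd_refl p) k))
    {Q : ℕ} (hQ : (Q : k) = 1) {R : ℕ}
    (hR : ∀ f : (ZMod p)[X], Irreducible f → ¬ f ^ (R + 1) ∣ H) {c : E}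
    (hc : ∃ c' : E, IsIntegral ℤ c' ∧ c * c' = (Q : E) ^ 2) : A.count c ≤ R := by
  classical
  have hfact : Fact p.Prime := ⟨hp⟩
  by_contra hlt
  rw [not_le] at hlt
  have hmem : c ∈ A := Multiset.count_pos.1 (by omega)
  rw [← hA', Multiset.mem_map] at hmem
  obtain ⟨x, hx, rfl⟩ := hmem
  rw [← hA', Multiset.count_map_eq_count' Subtype.val A' Subtype.val_injective] at hlt
  obtain ⟨c', hc', hcc⟩ := hc
  -- the reduction is not zero
  have hθ : θ x ≠ 0 := by
    intro h0
    have h1 : x * (⟨c', hc'⟩ : (integralClosure ℤ E).toSubring) =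
        ((Q : ℕ) : (integralClosure ℤ E).toSubring) ^ 2 := by
      apply Subtype.ext
      push_cast
      exact hcc
    have h2 := congrArg θ h1
    rw [map_mul, h0, zero_mul, map_pow, map_natCast, hQ, one_pow] at h2
    exact zero_ne_one h2
  have h3 : A'.count x ≤ (A'.filter fun y => θ y = θ x).card := by
    rw [Multiset.count_eq_card_filter_eq]
    apply Multiset.card_le_card
    apply Multiset.monotone_filter_right
    intro y hy
    rw [← hy]
  have h4 := pow_card_dvd A' (fun y => θ y) hθ (m := R + 1) (by omega)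
  rw [hprod] at h4
  letI : Algebra (ZMod p) k := (ZMod.castHom (dvd_refl p) k).toAlgebra
  have hH0' : H.map (algebraMap (ZMod p) k) ≠ 0 := by rwa [Ne, Polynomial.map_eq_zero]
  have h5 : R + 1 ≤ (H.map (algebraMap (ZMod p) k)).rootMultiplicity (θ x)⁻¹ :=
    (le_rootMultiplicity_iff hH0').2 h4
  have hint : IsIntegral (ZMod p) (θ x)⁻¹ := by
    have h6 : (H.map (algebraMap (ZMod p) k)).IsRoot (θ x)⁻¹ :=
      (rootMultiplicity_pos hH0').1 (by omega)
    have h7 : IsAlgebraic (ZMod p) (θ x)⁻¹ := ⟨H, hH0, by rwa [IsRoot.def, eval_map_algebraMap] at h6⟩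
    exact h7.isIntegral
  exact hR _ (minpoly.irreducible hint) (pow_minpoly_dvd hint (R + 1) H hH0 h5)

end Pool.Agent.Run7.h735.SS
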