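import Pool.Agent.Run7.h735.IK.Surf

/-!
# Semisimplicity of Frobenius: definitions
-/

set_option autoImplicit false

universe u

namespace Pool.Agent.Run7.h735.SS

open Polynomial Pool.Agent.Y134.TF Pool.Agent.TH125.Gal

section
variable {K A : Type} [Field K] [Ring A] [Algebra K A] {Γ : Type} [Group Γ]

/-- The Jordan blocks of `g` on `U` have size at most `R`: for every `c` the power `(g - c) ^ R` is zero on the elements
of `U` in the generalized eigenspace of `g` for `c`. -/
def JordanAtMost (act : Γ →* (A ≃ₐ[K] A)) (U : Submodule K A) (g : Γ) (R : ℕ) : Prop :=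
  ∀ c : K, ∀ x ∈ U, x ∈ Module.End.maxGenEigenspace (act g).toLinearMap c →
    (((act g).toLinearMap - c • (1 : Module.End K A)) ^ R) x = 0

/-- The generalized eigenspaces of `g` on `U` are eigenspaces. -/
def SemisimpleOn (act : Γ →* (A ≃ₐ[K] A)) (U : Submodule K A) (g : Γ) : Prop :=
  ∀ c : K, ∀ x ∈ U, x ∈ Module.End.maxGenEigenspace (act g).toLinearMap c → act g x = c • x

end

/-- No power `f ^ (R + 1)` of an irreducible polynomial divides `H`. -/
def PowerFree (p : ℕ) (H : (ZMod p)[X]) (R : ℕ) : Prop :=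
  ∀ f : (ZMod p)[X], Irreducible f → ¬ f ^ (R + 1) ∣ H

open Pool.Agent.H914 Pool.Agent.H914.VarClass Pool.Agent.H914.VarClass.Obj
  Pool.Agent.H914.WeilCohomology Pool.Agent.H281R3.HT

variable {k : Type u} [Field k] {𝒱 : VarClass k} {ops : CycleOps 𝒱}
  {W : WeilCohomology.{u, 0} ops} {Γ : Type} [Group Γ]

/-- The Jordan blocks of `g` on `H^2(S)` have size at most `R`. -/
def JordanBound (S : PVar W Γ) (g : Γ) (R : ℕ) : Prop :=
  JordanAtMost S.act (W.gr S.X 2) g R

/-- The endomorphism `g` of `H^2(S)` is semisimple: its generalized eigenspaces are eigenspaces. -/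
def Semisimple (S : PVar W Γ) (g : Γ) : Prop :=
  SemisimpleOn S.act (W.gr S.X 2) g

/-- If `S` is the surface `w ^ (p ^ s) = F(x, y)` over `κ`, then the Jordan blocks of Frobenius on `H^2(S)` have size at
most `R`. -/
def JordanFor (χ : Γ →* W.Kˣ) (S : PVar W Γ) (p s : ℕ) (κ : Type) [Field κ] [Fintype κ]
    (F : MvPolynomial (Fin 2) κ) (R : ℕ) : Prop :=
  ∀ v : IK.CyclicSurface χ S.act S.P p s κ F, JordanBound S v.φ R

/-- If `S` is the surface `w ^ (p ^ s) = F(x, y)` over `κ`, then Frobenius is semisimple on `H^2(S)`. -/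
def SemisimpleFor (χ : Γ →* W.Kˣ) (S : PVar W Γ) (p s : ℕ) (κ : Type) [Field κ] [Fintype κ]
    (F : MvPolynomial (Fin 2) κ) : Prop :=
  ∀ v : IK.CyclicSurface χ S.act S.P p s κ F, Semisimple S v.φ

end Pool.Agent.Run7.h735.SS
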