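import Pool.Agent.Run7.h735.SS.Main
import Pool.Agent.Run7.h735.RN.Main

/-!
# Jordan blocks of Frobenius: families
-/

set_option autoImplicit false

universe u

namespace Pool.Agent.Run7.h735.SS

open Polynomial Finset Pool.Agent.Run7.h735.IK Pool.Agent.Run7.h735.RN

section
variable {p : ℕ} [Fact p.Prime]

lemma powerFree_of_separable {H : (ZMod p)[X]} (h : H.Separable) : PowerFree p H 1 := by
  intro f hf hdvd
  have h1 : f * f ∣ H := by
    have := hdvd
    rwa [pow_succ, pow_one] at this
  exact hf.not_isUnit (h.squarefree f h1)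

/-- Root multiplicities in the algebraic closure. -/
lemma powerFree_of_mult {H : (ZMod p)[X]} {R : ℕ}
    (hne : H.map (algebraMap (ZMod p) (AlgebraicClosure (ZMod p))) ≠ 0)
    (h : ∀ β : AlgebraicClosure (ZMod p),
      (H.map (algebraMap (ZMod p) (AlgebraicClosure (ZMod p)))).rootMultiplicity β ≤ R) :
    PowerFree p H R := by
  intro f hf hdvd
  obtain ⟨β, hβ⟩ := IsAlgClosed.exists_aeval_eq_zero (AlgebraicClosure (ZMod p)) f
    (degree_pos_of_irreducible hf).ne'
  have h1 := Polynomial.map_dvd (algebraMap (ZMod p) (AlgebraicClosure (ZMod p))) hdvd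
  rw [Polynomial.map_pow] at h1
  have h2 : (X - C β) ^ (R + 1) ∣ H.map (algebraMap (ZMod p) (AlgebraicClosure (ZMod p))) := by
    refine (pow_dvd_pow_of_dvd ?_ _).trans h1
    rw [dvd_iff_isRoot, IsRoot.def, eval_map_algebraMap]
    exact hβ
  have h3 := (le_rootMultiplicity_iff hne).2 h2
  have h4 := h β
  omega

lemma separable_one_add {D : ℕ} (hD : ¬ p ∣ D) {F : Type} [Field F] [CharP F p] :
    (1 + X ^ D : F[X]).Separable := by
  have hDKb : (D : F) ≠ 0 := by rwa [Ne, CharP.cast_eq_zero_iff F p D]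
  have h2 : (X ^ D - C (-1) : F[X]).Separable :=
    separable_X_pow_sub_C (-1 : F) hDKb (neg_ne_zero.2 one_ne_zero)
  have h3 : (X ^ D - C (-1) : F[X]) = 1 + X ^ D := by
    rw [C_neg, C_1]
    ring
  rwa [h3] at h2

/-- The polynomials `1 + X ^ D` for numbers `D` with different powers of `2`. -/
lemma coprime_one_add {F : Type} [Field F] (h2 : (2 : F) ≠ 0) {D D' : ℕ} (hD : 0 < D)
    (hD' : 0 < D') (hlt : D.factorization 2 < D'.factorization 2) :
    IsCoprime (1 + X ^ D : F[X]) (1 + X ^ D') := by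
  set N := Nat.lcm D D' with hN
  obtain ⟨a, ha⟩ := Nat.dvd_lcm_left D D'
  obtain ⟨b, hb⟩ := Nat.dvd_lcm_right D D'
  rw [← hN] at ha hb
  have hN0 : N ≠ 0 := (Nat.lcm_pos hD hD').ne'
  have ha0 : a ≠ 0 := by
    rintro rfl
    exact hN0 (by rw [ha, mul_zero])
  have hb0 : b ≠ 0 := by
    rintro rfl
    exact hN0 (by rw [hb, mul_zero])
  have hfa : N.factorization 2 = D.factorization 2 + a.factorization 2 := by
    rw [ha, Nat.factorization_mul hD.ne' ha0, Finsupp.add_apply]
  have hfb : N.factorization 2 = D'.factorization 2 + b.factorization 2 := by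
    rw [hb, Nat.factorization_mul hD'.ne' hb0, Finsupp.add_apply]
  have hfN : N.factorization 2 = D'.factorization 2 := by
    rw [hN, Nat.factorization_lcm hD.ne' hD'.ne', Finsupp.sup_apply]
    exact sup_eq_right.2 hlt.le
  have hae : Even a := by
    rw [even_iff_two_dvd]
    exact Nat.dvd_of_factorization_pos (by omega)
  have hbo : Odd b := by
    rw [← Nat.not_even_iff_odd, even_iff_two_dvd]
    intro h3
    have := Nat.prime_two.factorization_pos_of_dvd hb0 h3
    omega
  have h3 : (1 + X ^ D : F[X]) ∣ X ^ N - 1 := by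
    obtain ⟨c, hc⟩ := hae
    have e1 : (X : F[X]) ^ N - 1 = (X ^ D * X ^ D) ^ c - 1 ^ c := by
      rw [ha, hc, one_pow, ← pow_add, ← pow_mul]
      congr 2
      ring
    rw [e1]
    refine dvd_trans ?_ (sub_dvd_pow_sub_pow _ _ c)
    exact ⟨X ^ D - 1, by ring⟩
  have h4 : (1 + X ^ D' : F[X]) ∣ X ^ N + 1 := by
    have e1 : (X : F[X]) ^ N + 1 = (X ^ D') ^ b + 1 ^ b := by
      rw [hb, one_pow, pow_mul]
    rw [e1, add_comm (1 : F[X])]
    exact hbo.add_dvd_pow_add_pow _ _
  have h5 : IsCoprime (X ^ N - 1 : F[X]) (X ^ N + 1) := by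
    refine ⟨-C (2⁻¹), C (2⁻¹), ?_⟩
    have e2 : (C (2⁻¹) : F[X]) * 2 = 1 := by
      rw [← C_ofNat, ← C_mul, inv_mul_cancel₀ h2, C_1]
    linear_combination e2
  exact (h5.of_isCoprime_of_dvd_left h3).of_isCoprime_of_dvd_right h4

/-- **Rational curves, different powers of `2` in the degrees.** -/
theorem powerFree_npoly {κ : Type} [Field κ] {G : Finset κ[X]}
    (hG : ∀ g ∈ G, 0 < g.natDegree / 2) (hpD : ∀ g ∈ G, ¬ p ∣ g.natDegree / 2)
    (h : G.card ≤ 1 ∨ (p ≠ 2 ∧
      Set.InjOn (fun g : κ[X] => (g.natDegree / 2).factorization 2) G)) :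
    PowerFree p (npoly (ZMod p) G) 1 := by
  classical
  have hp : p.Prime := Fact.out
  apply powerFree_of_separable
  unfold npoly
  apply separable_prod'
  · intro g hg g' hg' hne
    rcases h with h | ⟨hp2, hinj⟩
    · exact absurd (card_le_one.1 h g hg g' hg') hne
    · have h2 : (2 : ZMod p) ≠ 0 := by
        have h3 : ((2 : ℕ) : ZMod p) ≠ 0 := by
          rw [Ne, CharP.cast_eq_zero_iff (ZMod p) p 2]
          intro h4
          exact hp2 ((Nat.prime_dvd_prime_iff_eq hp Nat.prime_two).1 h4)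
        exact_mod_cast h3
      have h4 : (g.natDegree / 2).factorization 2 ≠ (g'.natDegree / 2).factorization 2 :=
        fun h5 => hne (hinj hg hg' h5)
      rcases lt_or_gt_of_ne h4 with h5 | h5
      · exact coprime_one_add h2 (hG g hg) (hG g' hg') h5
      · exact (coprime_one_add h2 (hG g' hg') (hG g hg) h5).symm
  · intro g hg
    exact separable_one_add (hpD g hg)

/-- **Rational curves, all cases.** -/
theorem powerFree_npoly_card {κ : Type} [Field κ] {G : Finset κ[X]}
    (hG : ∀ g ∈ G, 0 < g.natDegree / 2) (hpD : ∀ g ∈ G, ¬ p ∣ g.natDegree / 2) :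
    PowerFree p (npoly (ZMod p) G) G.card := by
  classical
  have hchar : CharP (AlgebraicClosure (ZMod p)) p :=
    charP_of_injective_algebraMap (algebraMap (ZMod p) (AlgebraicClosure (ZMod p))).injective p
  have hne := npoly_ne_zero (Kb := AlgebraicClosure (ZMod p)) G hG
  apply powerFree_of_mult
  · rw [map_npoly]
    exact hne
  · intro β
    rw [map_npoly]
    induction G using Finset.induction_on with
    | empty =>
      unfold npoly
      rw [prod_empty, ← C_1, rootMultiplicity_C]
      exact Nat.zero_le _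
    | insert a s ha ih =>
      have h1 := ih (fun g hg => hG g (mem_insert_of_mem hg))
        (fun g hg => hpD g (mem_insert_of_mem hg))
        (npoly_ne_zero (Kb := AlgebraicClosure (ZMod p)) s
          fun g hg => hG g (mem_insert_of_mem hg))
      unfold npoly at hne h1 ⊢
      rw [prod_insert ha] at hne ⊢
      rw [rootMultiplicity_mul hne, card_insert_of_notMem ha, add_comm]
      exact Nat.add_le_add h1 (rootMultiplicity_le_one_of_separable
        (separable_one_add (hpD a (mem_insert_self a s))) β)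

lemma weighted_one (hp : 0 < p) : ∀ t : List ℕ, weighted p (p - 1) (fun _ => 1) t =
    p ^ t.length - 1
  | [] => by simp [weighted]
  | D :: t => by
    rw [weighted, weighted_one hp t, List.length_cons, pow_succ]
    have h3 : 0 < p ^ t.length := pow_pos hp _
    obtain ⟨a, ha⟩ : ∃ a, p ^ t.length = a + 1 := ⟨p ^ t.length - 1, by omega⟩
    obtain ⟨b, hb⟩ : ∃ b, p = b + 1 := ⟨p - 1, by omega⟩
    rw [ha, Nat.add_sub_cancel]
    have h4 : (a + 1) * p = p * a + p := by ring
    rw [h4]
    omega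

/-- **Iterated Kummer curves.** -/
theorem powerFree_hpoly {t : List ℕ} (ht : ∀ D ∈ t, ¬ p ∣ D) :
    PowerFree p (hpoly (ZMod p) p t) (p ^ t.length - 1) := by
  classical
  have hp : p.Prime := Fact.out
  have hchar : CharP (AlgebraicClosure (ZMod p)) p :=
    charP_of_injective_algebraMap (algebraMap (ZMod p) (AlgebraicClosure (ZMod p))).injective p
  apply powerFree_of_mult
  · rw [map_hpoly]
    exact hpoly_ne_zero t ht
  · intro β
    rw [map_hpoly, ← weighted_one hp.pos t]
    induction t with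
    | nil =>
      rw [hpoly, ← C_1, rootMultiplicity_C]
      exact Nat.zero_le _
    | cons D t ih =>
      have hD : ¬ p ∣ D := ht D List.mem_cons_self
      have ht' : ∀ D ∈ t, ¬ p ∣ D := fun D hD => ht D (List.mem_cons_of_mem _ hD)
      have h0 := hpoly_ne_zero (Kb := AlgebraicClosure (ZMod p)) (D :: t) ht
      have h2 := hpoly_ne_zero (Kb := AlgebraicClosure (ZMod p)) t ht'
      rw [hpoly] at h0 ⊢
      have hDKb : (D : AlgebraicClosure (ZMod p)) ≠ 0 := by
        rwa [Ne, CharP.cast_eq_zero_iff _ p D]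
      have hsep : (X ^ D - 1 : (AlgebraicClosure (ZMod p))[X]).Separable :=
        X_pow_sub_one_separable_iff.2 hDKb
      have hdvd : (∑ i ∈ range D, X ^ i) ∣ (X ^ D - 1 : (AlgebraicClosure (ZMod p))[X]) :=
        ⟨X - 1, (geom_sum_mul X D).symm⟩
      have hsep' : (∑ i ∈ range D, (X : (AlgebraicClosure (ZMod p))[X]) ^ i).Separable :=
        hsep.of_dvd hdvd
      rw [rootMultiplicity_mul h0, rootMultiplicity_pow' hsep'.ne_zero,
        rootMultiplicity_pow' h2, weighted]
      exact Nat.add_le_add (Nat.mul_le_mul_left _ (rootMultiplicity_le_one_of_separable hsep' β))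
        (Nat.mul_le_mul_left _ (ih ht'))

/-- **Towers of double coverings.** -/
theorem powerFree_two {D j : ℕ} (hD : Odd D) :
    PowerFree 2 (hpoly (ZMod 2) 2 (D :: List.replicate j 1)) 1 := by
  have hfact : Fact (Nat.Prime 2) := ⟨Nat.prime_two⟩
  have h1 : ∀ j : ℕ, hpoly (ZMod 2) 2 (List.replicate j 1) = 1 := by
    intro j
    induction j with
    | zero => rfl
    | succ j ih =>
      rw [List.replicate_succ, hpoly, ih]
      simp
  rw [hpoly, h1, one_pow, mul_one, show 2 - 1 = 1 from rfl, pow_one]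
  apply powerFree_of_separable
  have hDKb : (D : ZMod 2) ≠ 0 := by
    rw [Ne, CharP.cast_eq_zero_iff (ZMod 2) 2 D, ← even_iff_two_dvd]
    exact Nat.not_even_iff_odd.2 hD
  have hsep : (X ^ D - 1 : (ZMod 2)[X]).Separable := X_pow_sub_one_separable_iff.2 hDKb
  exact hsep.of_dvd ⟨X - 1, (geom_sum_mul X D).symm⟩

end

end Pool.Agent.Run7.h735.SS
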