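import Mathlib

/-!
# Jordan blocks: linear algebra
-/

set_option autoImplicit false

namespace Pool.Agent.Run7.h735.SS

open Polynomial Module Finset

section
variable {K V : Type} [Field K] [AddCommGroup V] [Module K V]

lemma aeval_sub_C (g : Module.End K V) (c : K) : aeval g (X - C c : K[X]) = g - c • 1 := by
  rw [map_sub, aeval_X, aeval_C]
  rfl

/-- A generalized eigenvector which is annihilated by a separable polynomial is an eigenvector. -/
theorem eigen_of_sep (g : Module.End K V) {f : K[X]} (hf : f.Separable) {c : K} {a : V}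
    (h1 : aeval g f a = 0) {N : ℕ} (h2 : ((g - c • 1) ^ N) a = 0) : (g - c • 1) a = 0 := by
  have hN : aeval g ((X - C c) ^ N : K[X]) a = 0 := by rw [map_pow, aeval_sub_C, h2]
  by_cases hc : f.eval c = 0
  · obtain ⟨h, hh⟩ := dvd_iff_isRoot.2 hc
    have hcop : IsCoprime ((X - C c) ^ N) h := by
      rw [hh] at hf
      exact hf.isCoprime.pow_left
    obtain ⟨u, w, huw⟩ := hcop
    have hb1 : aeval g (w * h * (X - C c)) a = 0 := by
      have e1 : w * h * (X - C c) = w * f := by rw [hh]; ring
      rw [e1, map_mul, Module.End.mul_apply, h1, map_zero]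
    have hb2 : aeval g (u * (X - C c) ^ N * (X - C c)) a = 0 := by
      have e1 : u * (X - C c) ^ N * (X - C c) = (u * (X - C c)) * (X - C c) ^ N := by ring
      rw [e1, map_mul, Module.End.mul_apply, hN, map_zero]
    have e2 : (X - C c : K[X]) = u * (X - C c) ^ N * (X - C c) + w * h * (X - C c) := by
      linear_combination (-(X - C c : K[X])) * huw
    rw [← aeval_sub_C, e2, map_add, LinearMap.add_apply, hb1, hb2, add_zero]
  · have hcop : IsCoprime ((X - C c) ^ N) f := by
      apply IsCoprime.pow_left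
      refine (irreducible_X_sub_C c).coprime_iff_not_dvd.2 ?_
      rw [dvd_iff_isRoot]
      exact hc
    obtain ⟨u, w, huw⟩ := hcop
    have ha : a = 0 := by
      have e1 : aeval g (u * (X - C c) ^ N + w * f) a = a := by rw [huw, map_one]; rfl
      rw [map_add, LinearMap.add_apply, map_mul, map_mul, Module.End.mul_apply,
        Module.End.mul_apply, hN, h1, map_zero, map_zero, add_zero] at e1
      exact e1.symm
    rw [ha, map_zero]

end

section
variable {K V : Type} [Field K] [AddCommGroup V] [Module K V] [FiniteDimensional K V]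

/-- The generalized eigenspace of dimension at most `R` is killed by `(F - α) ^ R`. -/
theorem pow_kills (F : Module.End K V) (α : K) {R : ℕ}
    (hR : finrank K (F.maxGenEigenspace α) ≤ R) (x : V) (hx : x ∈ F.maxGenEigenspace α) :
    ((F - α • (1 : Module.End K V)) ^ R) x = 0 := by
  have hmaps : Set.MapsTo (F - algebraMap K (Module.End K V) α) (F.maxGenEigenspace α)
      (F.maxGenEigenspace α) :=
    F.mapsTo_maxGenEigenspace_of_comm (Algebra.mul_sub_algebraMap_commutes F α) α
  have hnil := F.isNilpotent_restrict_maxGenEigenspace_sub_algebraMap α hmaps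
  have h1 := IsNilpotent.charpoly_eq_X_pow_finrank hnil
  have h2 := LinearMap.aeval_self_charpoly
    ((F - algebraMap K (Module.End K V) α).restrict hmaps)
  rw [h1, map_pow, aeval_X] at h2
  have h3 : (((F - algebraMap K (Module.End K V) α).restrict hmaps) ^ R) = 0 := by
    obtain ⟨d, hd⟩ := Nat.exists_eq_add_of_le hR
    rw [hd, pow_add, h2, zero_mul]
  have h4 := congrArg (fun f => f ⟨x, hx⟩) h3
  simp only [LinearMap.zero_apply] at h4
  have h5 := congrArg (Subtype.val) h4
  rw [Module.End.pow_restrict R hmaps] at h5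
  rw [LinearMap.restrict_apply] at h5
  simpa [Algebra.algebraMap_eq_smul_one] using h5

omit [FiniteDimensional K V] in
/-- The components of a direct sum of stable subspaces. -/
theorem comp_data {n : ℕ} (Ψ : Module.End K V) (W : Fin n → Submodule K V)
    (hW : DirectSum.IsInternal W) (hstab : ∀ j, ∀ v ∈ W j, Ψ v ∈ W j) :
    ∃ π : ∀ j, V →ₗ[K] W j, (∀ v, ∑ j, (π j v : V) = v) ∧
      ∀ j v, π j (Ψ v) = Ψ.restrict (hstab j) (π j v) := by
  classical
  let e : (DirectSum (Fin n) fun j => W j) ≃ₗ[K] V :=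
    LinearEquiv.ofBijective (DirectSum.coeLinearMap W) hW
  let π : ∀ j, V →ₗ[K] W j := fun j => (DirectSum.component K (Fin n) (fun j => W j) j) ∘ₗ
    e.symm.toLinearMap
  have hsum : ∀ v, ∑ j, (π j v : V) = v := by
    intro v
    have h1 : e (e.symm v) = v := e.apply_symm_apply v
    conv_rhs => rw [← h1]
    change _ = DirectSum.coeLinearMap W (e.symm v)
    rw [DirectSum.coeLinearMap_eq_dfinsuppSum, DFinsupp.sum_eq_sum_fintype]
    · rfl
    · intro i
      rfl
  have huniq : ∀ (w : ∀ j, W j) (j : Fin n), π j (∑ i, (w i : V)) = w j := by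
    intro w j
    have h1 : ∑ i, (w i : V) = e (∑ i, DirectSum.lof K (Fin n) (fun j => W j) i (w i)) := by
      rw [map_sum]
      refine sum_congr rfl fun i _ => ?_
      change _ = DirectSum.coeLinearMap W _
      rw [DirectSum.coeLinearMap_lof]
    rw [h1]
    change DirectSum.component K (Fin n) (fun j => W j) j (e.symm (e _)) = _
    rw [LinearEquiv.symm_apply_apply, map_sum]
    rw [sum_eq_single j]
    · exact DirectSum.component.lof_self K (M := fun j => W j) j (w j)
    · intro i _ hij
      rw [DirectSum.component.of]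
      exact dif_neg hij
    · intro h
      exact absurd (mem_univ j) h
  refine ⟨π, hsum, fun j v => ?_⟩
  have h1 : Ψ v = ∑ i, ((Ψ.restrict (hstab i) (π i v) : W i) : V) := by
    conv_lhs => rw [← hsum v, map_sum]
    rfl
  rw [h1]
  exact huniq (fun i => Ψ.restrict (hstab i) (π i v)) j

/-- The Jordan blocks of a direct sum. -/
theorem kills_of_parts {n : ℕ} (Ψ : Module.End K V) (W : Fin n → Submodule K V)
    (hW : DirectSum.IsInternal W) (hstab : ∀ j, ∀ v ∈ W j, Ψ v ∈ W j) {c : K} {R : ℕ}
    (hR : ∀ j, finrank K (Module.End.maxGenEigenspace (Ψ.restrict (hstab j)) c) ≤ R)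
    {N : ℕ} {x : V} (hx : ((Ψ - c • 1) ^ N) x = 0) : ((Ψ - c • 1) ^ R) x = 0 := by
  obtain ⟨π, hsum, hcomm⟩ := comp_data Ψ W hW hstab
  have hpow : ∀ j (i : ℕ) v, π j (((Ψ - c • 1) ^ i) v) =
      (((Ψ.restrict (hstab j)) - c • 1) ^ i) (π j v) := by
    intro j i
    induction i with
    | zero => intro v; rfl
    | succ i ih =>
      intro v
      rw [pow_succ, Module.End.mul_apply, ih, pow_succ, Module.End.mul_apply]
      congr 1
      rw [LinearMap.sub_apply, map_sub, hcomm, LinearMap.sub_apply, LinearMap.smul_apply,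
        LinearMap.smul_apply, map_smul]
      rfl
  rw [← hsum (((Ψ - c • 1) ^ R) x)]
  refine sum_eq_zero fun j _ => ?_
  rw [hpow]
  have h1 : π j x ∈ Module.End.maxGenEigenspace (Ψ.restrict (hstab j)) c := by
    refine (Module.End.mem_maxGenEigenspace _ _ _).2 ⟨N, ?_⟩
    rw [← hpow, hx, map_zero]
  rw [pow_kills _ c (hR j) _ h1]
  rfl

/-- The eigenvalues of a direct sum. -/
theorem exists_part {n : ℕ} (Ψ : Module.End K V) (W : Fin n → Submodule K V)
    (hW : DirectSum.IsInternal W) (hstab : ∀ j, ∀ v ∈ W j, Ψ v ∈ W j) {c : K} {x : V}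
    (hx0 : x ≠ 0) (hx : Ψ x = c • x) : ∃ j, c ∈ (Ψ.restrict (hstab j)).charpoly.roots := by
  classical
  obtain ⟨π, hsum, hcomm⟩ := comp_data Ψ W hW hstab
  obtain ⟨j, hj⟩ : ∃ j, π j x ≠ 0 := by
    by_contra hne
    push Not at hne
    apply hx0
    rw [← hsum x]
    exact sum_eq_zero fun j _ => by rw [hne j]; rfl
  refine ⟨j, ?_⟩
  have h1 : Module.End.HasEigenvalue (Ψ.restrict (hstab j)) c := by
    apply Module.End.hasEigenvalue_of_hasEigenvector (x := π j x)
    refine ⟨?_, hj⟩
    rw [Module.End.mem_eigenspace_iff, ← hcomm, hx, map_smul]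
  rw [mem_roots (LinearMap.charpoly_monic _).ne_zero]
  exact (Module.End.hasEigenvalue_iff_isRoot_charpoly _ _).1 h1

end

end Pool.Agent.Run7.h735.SS
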