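import Pool.Agent.Run7.h735.SS.Defs
import Pool.Agent.Run7.h735.SS.Char
import Pool.Agent.Run7.h735.CF.Tate

/-!
# Jordan blocks of Frobenius on cyclic coverings of the plane
-/

set_option autoImplicit false

universe u

namespace Pool.Agent.Run7.h735.SS

open Polynomial Module Pool.Agent.Y134.TF Pool.Agent.Y130 Pool.Agent.TH125.Gal
  Pool.Agent.TH118.SG Pool.Agent.Y134.Cyc Pool.Agent.Run7.h735.TP Pool.Agent.Run7.h735.CP
  Pool.Agent.Run7.h735.CF
open Pool.Agent.H914 Pool.Agent.H914.VarClass Pool.Agent.H914.VarClass.Obj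
  Pool.Agent.H914.WeilCohomology Pool.Agent.H281R3.HT Pool.Agent.W552

variable {k : Type u} [Field k] {𝒱 : VarClass k} {ops : CycleOps 𝒱}
  {W : WeilCohomology.{u, 0} ops} {Γ : Type} [Group Γ] {χ : Γ →* W.Kˣ} {S : PVar W Γ}

/-- The Jordan blocks on `H^2`, from those on `P`. -/
theorem jordan_gr (h : Cover χ S 1) {g : Γ} (hgP : ∀ v ∈ S.P, (S.act g).toLinearMap v ∈ S.P)
    {c : W.K} {R : ℕ} (hR1 : 1 ≤ R)
    (hR : ∀ y ∈ S.P, ∀ N : ℕ, (((S.act g).toLinearMap - c • (1 : Module.End W.K (W.H S.X))) ^ N) y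
      = 0 → (((S.act g).toLinearMap - c • (1 : Module.End W.K (W.H S.X))) ^ R) y = 0)
    {x : W.H S.X} (hx2 : x ∈ W.gr S.X 2) {N : ℕ}
    (hN : (((S.act g).toLinearMap - c • (1 : Module.End W.K (W.H S.X))) ^ N) x = 0) :
    (((S.act g).toLinearMap - c • (1 : Module.End W.K (W.H S.X))) ^ R) x = 0 := by
  classical
  have hG := h.galois
  have hd : S.X.dim = 2 * 1 := h.dim
  have hP : S.P ≤ W.gr S.X 2 := by
    have := h.middle
    rwa [hd] at this
  obtain ⟨A, hA, hAP, ho⟩ := h.sum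
  have hA : A ≤ algSpan W S.X := hA
  have hxA : x ∈ A ⊔ S.P := by rw [hAP]; exact Submodule.mem_top
  obtain ⟨a, ha, y, hy, rfl⟩ := Submodule.mem_sup.1 hxA
  set T : Module.End W.K (W.H S.X) := (S.act g).toLinearMap - c • 1 with hT
  have hTP : ∀ i : ℕ, ∀ v ∈ S.P, (T ^ i) v ∈ S.P := by
    intro i
    induction i with
    | zero => intro v hv; simpa using hv
    | succ i ih =>
      intro v hv
      rw [pow_succ', Module.End.mul_apply]
      exact S.P.sub_mem (hgP _ (ih v hv)) (S.P.smul_mem _ (ih v hv))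
  have hTA : ∀ i : ℕ, ∀ v : W.H S.X, (∀ y ∈ S.P, W.tr S.X (v * y) = 0) →
      ∀ y ∈ S.P, W.tr S.X ((T ^ i) v * y) = 0 := by
    intro i
    induction i with
    | zero => intro v hv; simpa using hv
    | succ i ih =>
      intro v hv
      have h3 := ih v hv
      have h4 := perp_stable hG hgP h3
      intro y hy
      rw [pow_succ', Module.End.mul_apply]
      have h5 : T ((T ^ i) v) = S.act g ((T ^ i) v) - c • (T ^ i) v := rfl
      rw [h5, sub_mul, map_sub, h4 y hy, smul_mul_assoc, map_smul, h3 y hy, smul_zero, sub_zero]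
  have h3 : (T ^ N) a + (T ^ N) y = 0 := by
    rw [← map_add]
    exact hN
  have h4 : (T ^ N) y = 0 := by
    refine perp_disjoint h (hTP N y hy) fun z hz => ?_
    have h5 : (T ^ N) y = - (T ^ N) a := by
      rw [eq_neg_iff_add_eq_zero, add_comm]
      exact h3
    rw [h5, neg_mul, map_neg, hTA N a (fun y hy => ho a ha y hy) z hz, neg_zero]
  have h5 : (T ^ N) a = 0 := by rwa [h4, add_zero] at h3
  rw [map_add, hR y hy N h4, add_zero]
  -- the algebraic part
  have h6 : a ∈ W.gr S.X (2 * 1) := by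
    have := (W.gr S.X 2).sub_mem hx2 (hP hy)
    rwa [add_sub_cancel_right] at this
  have h7 := algSpan_gr (hA ha) h6
  obtain ⟨Δ, hΔ, h8⟩ := exists_fix (X := S.toGVar) hG h7
  obtain ⟨n, hn, -, hnΔ⟩ := Δ.exists_pow_mem_of_index_ne_zero hΔ.index_ne_zero g
  have h9 : ((S.act g).toLinearMap ^ n) a = (χ g : W.K) ^ n • a := by
    have e1 : ∀ i : ℕ, ((S.act g).toLinearMap ^ i) a = S.act (g ^ i) a := by
      intro i
      induction i with
      | zero => rw [pow_zero, pow_zero, map_one]; rfl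
      | succ i ih =>
        rw [pow_succ', Module.End.mul_apply, ih, pow_succ', map_mul, AlgEquiv.mul_apply]
        rfl
    rw [e1]
    have e2 : S.act (g ^ n) a = (χ (g ^ n) : W.K) ^ 1 • a := h8 _ hnΔ
    rw [e2, pow_one, map_pow, Units.val_pow_eq_pow_val]
  have hsep : (X ^ n - C ((χ g : W.K) ^ n) : W.K[X]).Separable :=
    separable_X_pow_sub_C _ (Nat.cast_ne_zero.2 hn.ne') (pow_ne_zero _ (Units.ne_zero (χ g)))
  have h10 : aeval (S.act g).toLinearMap (X ^ n - C ((χ g : W.K) ^ n) : W.K[X]) a = 0 := by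
    rw [map_sub, map_pow, aeval_X, aeval_C, LinearMap.sub_apply, h9, sub_eq_zero]
    rfl
  have h11 : T a = 0 := eigen_of_sep (S.act g).toLinearMap hsep h10 h5
  obtain ⟨R', rfl⟩ : ∃ R', R = R' + 1 := ⟨R - 1, by omega⟩
  rw [pow_succ, Module.End.mul_apply, h11, map_zero]

/-- The duality: with `c` also `q ^ 2 / c` is an eigenvalue on `P`. -/
theorem dual (h : Cover χ S 1) {g : Γ} (hgP : ∀ v ∈ S.P, (S.act g).toLinearMap v ∈ S.P) {c : W.K}
    {x : W.H S.X} (hx : x ∈ S.P) (hx0 : x ≠ 0) (hcx : S.act g x = c • x) :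
    ∃ (c' : W.K) (y : S.P), y ≠ 0 ∧ c * c' = (χ g : W.K) ^ 2 ∧
      (S.act g).toLinearMap.restrict hgP y = c' • y := by
  classical
  have hG := h.galois
  have hd : S.X.dim = 2 * 1 := h.dim
  have hc0 : c ≠ 0 := by
    rintro rfl
    rw [zero_smul] at hcx
    exact hx0 ((map_eq_zero_iff _ (S.act g).injective).1 hcx)
  set c' : W.K := (χ g : W.K) ^ 2 / c with hc'
  have hcc : c * c' = (χ g : W.K) ^ 2 := by rw [hc']; field_simp
  set T : Module.End W.K S.P := (S.act g).toLinearMap.restrict hgP with hT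
  by_contra hne
  push Not at hne
  have hinj : Function.Injective (T - c' • (1 : Module.End W.K S.P)) := by
    rw [← LinearMap.ker_eq_bot, LinearMap.ker_eq_bot']
    intro y hy
    by_contra hy0
    exact hne c' y hy0 hcc (sub_eq_zero.1 hy)
  have hsurj := LinearMap.injective_iff_surjective.1 hinj
  apply hx0
  refine perp_disjoint h hx fun y hy => ?_
  obtain ⟨z, hz⟩ := hsurj ⟨y, hy⟩
  have hz' : S.act g (z : W.H S.X) - c' • (z : W.H S.X) = y := congrArg Subtype.val hz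
  have h1 : W.tr S.X (S.act g (x * (z : W.H S.X))) = (χ g : W.K) ^ 2 * W.tr S.X (x * z) := by
    rw [hG.tr_act, hd]
  rw [map_mul, hcx, smul_mul_assoc, map_smul, smul_eq_mul] at h1
  have h2 : W.tr S.X (x * S.act g (z : W.H S.X)) = c' * W.tr S.X (x * z) := by
    apply mul_left_cancel₀ hc0
    rw [h1, ← mul_assoc, hcc]
  rw [← hz', mul_sub, map_sub, h2, mul_smul_comm, map_smul, smul_eq_mul, sub_self]

theorem semisimple_of_jordan {g : Γ} (h : JordanBound S g 1) : Semisimple S g := by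
  intro c x hx hgen
  have h1 := h c x hx hgen
  rw [pow_one, LinearMap.sub_apply, sub_eq_zero] at h1
  exact h1

attribute [local instance] CyclicPlace.field CyclicPlace.fintype

variable [IsAlgClosed W.K] {p s : ℕ} {H : (ZMod p)[X]}

/-- The multiplicities on the parts. -/
theorem part_mult {p s : ℕ} (hp : p.Prime) (hs : 1 ≤ s) {κ : Type} [Field κ] [Fintype κ]
    (hdvd : p ^ s ∣ Fintype.card κ - 1) (F : MvPolynomial (Fin 2) κ) {E : Type} [Field E]
    [CharZero E] [IsAlgClosed E] (χ : MulChar κ E) (hχ : orderOf χ = p ^ s)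
    (P₁ P₂ : ℤ[X]) (hP₁ : P₁.coeff 0 = 1) (hP₂ : P₂.coeff 0 = 1) (B₁ B₂ : Multiset E)
    (hB₁ : P₁.map (Int.castRingHom E) = (B₁.map fun x => 1 - C x * X).prod)
    (hB₂ : P₂.map (Int.castRingHom E) = (B₂.map fun x => 1 - C x * X).prod)
    (hC : ∀ (L : Type) [Field L] [Fintype L] [Algebra κ L],
      (curvePoints F L : E) = Fintype.card L - (B₁.map fun x => x ^ Module.finrank κ L).sum
          + (B₂.map fun x => x ^ Module.finrank κ L).sum)
    (H : (ZMod p)[X])
    (hH : H * P₂.map (Int.castRingHom (ZMod p)) = P₁.map (Int.castRingHom (ZMod p)))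
    {V : Type} [AddCommGroup V] [Module E V] [FiniteDimensional E V] (Ψ : Module.End E V)
    (W : Fin (p ^ s - 1) → Submodule E V) (hW : DirectSum.IsInternal W)
    (hstab : ∀ j, ∀ v ∈ W j, Ψ v ∈ W j)
    (hΨ : ∀ (j : Fin (p ^ s - 1)) (L : Type) [Field L] [Fintype L] [Algebra κ L],
      LinearMap.trace E (W j) ((Ψ.restrict (hstab j)) ^ Module.finrank κ L)
        = charSum (χ ^ ((j : ℕ) + 1)) F L)
    (hdual : ∀ (c : E) (x : V), x ≠ 0 → Ψ x = c • x → ∃ (c' : E) (y : V), y ≠ 0 ∧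
      c * c' = (Fintype.card κ : E) ^ 2 ∧ Ψ y = c' • y)
    {R : ℕ} (hR : PowerFree p H R) (j : Fin (p ^ s - 1)) (c : E) :
    finrank E (Module.End.maxGenEigenspace (Ψ.restrict (hstab j)) c) ≤ R := by
  classical
  have hfact : Fact p.Prime := ⟨hp⟩
  have hH0 : H ≠ 0 := by
    rintro rfl
    exact hR X irreducible_X (dvd_zero _)
  have hcong := fun i : Fin (p ^ s - 1) => char_congr hp hs hdvd F χ hχ
    (Nat.succ_le_succ (Nat.zero_le (i : ℕ))) P₁ P₂ hP₁ hP₂ B₁ B₂ hB₁ hB₂ hC H hH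
    (Ψ.restrict (hstab i)) (hΨ i)
  rw [LinearMap.finrank_maxGenEigenspace_eq, ← count_roots]
  by_cases hroot : c ∈ (Ψ.restrict (hstab j)).charpoly.roots
  swap
  · rw [Multiset.count_eq_zero_of_notMem hroot]
    exact Nat.zero_le _
  obtain ⟨kk, _, _, θ, A', hA', hprod, hq⟩ := hcong j
  refine count_le hp θ _ A' hA' hH0 hprod hq hR ?_
  -- the eigenvector
  rw [mem_roots (LinearMap.charpoly_monic _).ne_zero] at hroot
  have hev := (Module.End.hasEigenvalue_iff_isRoot_charpoly _ _).2 hroot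
  obtain ⟨w, hw⟩ := hev.exists_hasEigenvector
  have hw1 : Ψ (w : V) = c • (w : V) := congrArg Subtype.val hw.apply_eq_smul
  have hw0 : (w : V) ≠ 0 := fun h0 => hw.2 (Subtype.ext h0)
  obtain ⟨c', y, hy0, hcc, hy⟩ := hdual c w hw0 hw1
  obtain ⟨i, hi⟩ := exists_part Ψ W hW hstab hy0 hy
  obtain ⟨-, -, -, -, A'', hA'', -, -⟩ := hcong i
  refine ⟨c', ?_, hcc⟩
  rw [← hA'', Multiset.mem_map] at hi
  obtain ⟨z, -, rfl⟩ := hi
  exact z.2

/-- **The Jordan blocks of Frobenius.** -/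
theorem jordanBound (h : Cover χ S 1) (hp : p.Prime) (hs : 1 ≤ s)
    (v : CyclicPlace χ S.act S.P p s H) {R : ℕ} (hR1 : 1 ≤ R) (hR : PowerFree p H R) :
    JordanBound S v.φ R := by
  classical
  intro c x hx hgen
  obtain ⟨N, hN⟩ := (Module.End.mem_maxGenEigenspace _ _ _).1 hgen
  refine jordan_gr h v.stable hR1 (fun y hy N hyN => ?_) hx hN
  set Ψ := (S.act v.φ).toLinearMap.restrict v.stable with hΨ
  have hcomp : ∀ (i : ℕ) (y : S.P), ((((Ψ - c • (1 : Module.End W.K S.P)) ^ i) y : S.P) :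
      W.H S.X) = (((S.act v.φ).toLinearMap - c • (1 : Module.End W.K (W.H S.X))) ^ i) y := by
    intro i
    induction i with
    | zero => intro y; rfl
    | succ i ih =>
      intro y
      rw [pow_succ, Module.End.mul_apply, ih, pow_succ, Module.End.mul_apply]
      rfl
  have h1 : ((Ψ - c • (1 : Module.End W.K S.P)) ^ N) ⟨y, hy⟩ = 0 := by
    apply Subtype.ext
    rw [hcomp]
    exact hyN
  have h2 := kills_of_parts Ψ v.parts.part v.parts.internal v.parts.stable
    (fun j => part_mult hp hs v.dvd v.F v.θ v.order v.zeta.P₁ v.zeta.P₂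
      v.zeta.roots₁.1 v.zeta.roots₂.1 v.zeta.B₁ v.zeta.B₂ v.zeta.roots₁.2 v.zeta.roots₂.2
      v.zeta.curve H v.zeta.quotient Ψ v.parts.part v.parts.internal v.parts.stable
      v.parts.trace (fun c x hx0 hcx => by
        obtain ⟨c', y, hy0, hcc, hy⟩ := dual h v.stable x.2
          (fun h0 => hx0 (Subtype.ext h0)) (congrArg Subtype.val hcx)
        exact ⟨c', y, hy0, by rw [hcc, v.frob], hy⟩) hR j c) h1
  have h3 := congrArg Subtype.val h2
  rw [hcomp] at h3
  exact h3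

end Pool.Agent.Run7.h735.SS
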