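import Pool.Agent.Run7.h735.SS.Fam

/-!
# Jordan blocks of Frobenius: the theorems for the families
-/

set_option autoImplicit false

universe u

namespace Pool.Agent.Run7.h735.SS

open Polynomial Finset Pool.Agent.Y130 Pool.Agent.Y134.TF Pool.Agent.TH125.Gal
  Pool.Agent.Run7.h735.TP Pool.Agent.Run7.h735.CP Pool.Agent.Run7.h735.RN
open Pool.Agent.H914 Pool.Agent.H914.VarClass Pool.Agent.H914.VarClass.Obj
  Pool.Agent.H914.WeilCohomology Pool.Agent.H281R3.HT

variable {k : Type u} [Field k] {𝒱 : VarClass k} {ops : CycleOps 𝒱}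
  {W : WeilCohomology.{u, 0} ops} [IsAlgClosed W.K] {Γ : Type} [Group Γ] {χ : Γ →* W.Kˣ}
  {S : PVar W Γ} {p s : ℕ}

theorem general (h : Cover χ S 1) (hp : p.Prime) (hs : 1 ≤ s) (H : (ZMod p)[X]) (R : ℕ)
    (hR1 : 1 ≤ R) (hR : PowerFree p H R) (v : CyclicPlace χ S.act S.P p s H) :
    JordanBound S v.φ R ∧ (R = 1 → Semisimple S v.φ) := by
  have h1 := jordanBound h hp hs v hR1 hR
  exact ⟨h1, fun hR => semisimple_of_jordan (hR ▸ h1)⟩

variable {κ : Type} [Field κ] [Fintype κ]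

theorem rational_jordan (h : Cover χ S 1) (hp : p.Prime) (hs : 1 ≤ s) {a b : κ[X]}
    {G : Finset κ[X]} {F : MvPolynomial (Fin 2) κ} (hG : NonSplit a b G) (hF : IsImage F a b)
    (hpD : ∀ g ∈ G, ¬ p ∣ g.natDegree / 2) : JordanFor χ S p s κ F (max 1 G.card) := by
  have hfact : Fact p.Prime := ⟨hp⟩
  intro v
  have h1 : PowerFree p (npoly (ZMod p) G) (max 1 G.card) := by
    intro f hf hdvd
    refine powerFree_npoly_card (fun g hg => (hG.deg hg).2) hpD f hf ((pow_dvd_pow f ?_).trans hdvd)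
    have := le_max_right 1 G.card
    omega
  exact jordanBound h hp hs (Pool.Agent.Run7.h735.RN.toPlace hp hG hF v) (le_max_left _ _) h1

theorem rational_semisimple (h : Cover χ S 1) (hp : p.Prime) (hs : 1 ≤ s) {a b : κ[X]}
    {G : Finset κ[X]} {F : MvPolynomial (Fin 2) κ} (hG : NonSplit a b G) (hF : IsImage F a b)
    (hpD : ∀ g ∈ G, ¬ p ∣ g.natDegree / 2)
    (hG' : G.card ≤ 1 ∨ (p ≠ 2 ∧
      Set.InjOn (fun g : κ[X] => (g.natDegree / 2).factorization 2) G)) :
    SemisimpleFor χ S p s κ F := by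
  have hfact : Fact p.Prime := ⟨hp⟩
  intro v
  have h1 : PowerFree p (npoly (ZMod p) G) 1 :=
    powerFree_npoly (fun g hg => (hG.deg hg).2) hpD hG'
  exact semisimple_of_jordan
    (jordanBound h hp hs (Pool.Agent.Run7.h735.RN.toPlace hp hG hF v) le_rfl h1)

theorem kummer_jordan (h : Cover χ S 1) (hp : p.Prime) (hs : 1 ≤ s) {l : List κ[X]} {t : List ℕ}
    (hl0 : l ≠ []) (hl : IK.HasDegrees p l t) (ht : ∀ D ∈ t, ¬ p ∣ D) :
    JordanFor χ S p s κ (IK.iter p l) (p ^ l.length - 1) := by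
  have hfact : Fact p.Prime := ⟨hp⟩
  intro v
  have h1 : 1 ≤ l.length := List.length_pos_iff.2 hl0
  have h2 : p ≤ p ^ l.length := Nat.le_self_pow (by omega) p
  have h3 := hp.two_le
  have h4 := powerFree_hpoly ht
  rw [hl.length] at h4
  exact jordanBound h hp hs (IK.toPlace hp hs hl v) (by omega) h4

theorem tower_semisimple (h : Cover χ S 1) (hs : 1 ≤ s) (hp2 : p = 2) {l : List κ[X]} {D j : ℕ}
    (hD : Odd D) (hl : IK.HasDegrees p l (D :: List.replicate j 1)) :
    SemisimpleFor χ S p s κ (IK.iter p l) := by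
  subst hp2
  intro v
  exact semisimple_of_jordan
    (jordanBound h Nat.prime_two hs (IK.toPlace Nat.prime_two hs hl v) le_rfl (powerFree_two hD))

end Pool.Agent.Run7.h735.SS
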